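import Pool.Agent.W477.GM.Stms

set_option maxHeartbeats 1000000

/-! Project GM: basics of forced equality and membership. -/

namespace Pool.Agent.W477.GM.W308EQ

open Pool.Agent.W477.GM

section

variable {P : Type 1} [PartialOrder P] [OrderTop P]

theorem Lab_mono {U : P → Prop} {q r : P} (h : r ≤ q) (hq : Lab U q) : Lab U r := by
  obtain ⟨u, hu, hqu⟩ := hq
  exact ⟨u, hu, h.trans hqu⟩

theorem feq_mono (x y : Nm P) (p q : P) (h : q ≤ p) (hxy : feq x y p) : feq x y q := by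
  cases x with
  | mk ι U x =>
    cases y with
    | mk κ W y =>
      rw [feq] at hxy ⊢
      exact ⟨fun i r hr hL => hxy.1 i r (hr.trans h) hL, fun j r hr hL => hxy.2 j r (hr.trans h) hL⟩

theorem feq_refl (x : Nm P) : ∀ p, feq x x p := by
  induction x with
  | mk ι U x ih =>
    intro p
    rw [feq]
    exact ⟨fun i q _ hL => ⟨q, le_rfl, i, hL, ih i q⟩, fun i q _ hL => ⟨q, le_rfl, i, hL, ih i q⟩⟩

theorem feq_symm (x : Nm P) : ∀ (y : Nm P) (p : P), feq x y p → feq y x p := by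
  induction x with
  | mk ι U x ih =>
    intro y p h
    cases y with
    | mk κ W y =>
      rw [feq] at h ⊢
      refine ⟨fun j q hq hL => ?_, fun i q hq hL => ?_⟩
      · obtain ⟨r, hr, i, hLi, he⟩ := h.2 j q hq hL
        exact ⟨r, hr, i, hLi, ih i _ _ he⟩
      · obtain ⟨r, hr, j, hLj, he⟩ := h.1 i q hq hL
        exact ⟨r, hr, j, hLj, ih i _ _ he⟩

theorem feq_trans (x : Nm P) : ∀ (y z : Nm P) (p : P), feq x y p → feq y z p → feq x z p := by
  induction x with
  | mk ι U x ih =>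
    intro y z p hxy hyz
    cases y with
    | mk κ W y =>
      cases z with
      | mk μ V z =>
        rw [feq] at hxy hyz ⊢
        refine ⟨fun i q hq hL => ?_, fun k q hq hL => ?_⟩
        · obtain ⟨r, hr, j, hLj, he⟩ := hxy.1 i q hq hL
          obtain ⟨s, hs, k, hLk, hf⟩ := hyz.1 j r (hr.trans hq) hLj
          exact ⟨s, hs.trans hr, k, hLk, ih i _ _ _ (feq_mono _ _ _ _ hs he) hf⟩
        · obtain ⟨r, hr, j, hLj, he⟩ := hyz.2 k q hq hL
          obtain ⟨s, hs, i, hLi, hf⟩ := hxy.2 j r (hr.trans hq) hLj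
          exact ⟨s, hs.trans hr, i, hLi, ih i _ _ _ hf (feq_mono _ _ _ _ hs he)⟩

theorem feq_dense (x y : Nm P) (p : P) (h : ∀ q, q ≤ p → ∃ r, r ≤ q ∧ feq x y r) :
    feq x y p := by
  cases x with
  | mk ι U x =>
    cases y with
    | mk κ W y =>
      rw [feq]
      refine ⟨fun i q hq hL => ?_, fun j q hq hL => ?_⟩
      · obtain ⟨r, hr, he⟩ := h q hq
        rw [feq] at he
        obtain ⟨s, hs, j, hLj, hf⟩ := he.1 i r le_rfl (Lab_mono hr hL)
        exact ⟨s, hs.trans hr, j, hLj, hf⟩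
      · obtain ⟨r, hr, he⟩ := h q hq
        rw [feq] at he
        obtain ⟨s, hs, i, hLi, hf⟩ := he.2 j r le_rfl (Lab_mono hr hL)
        exact ⟨s, hs.trans hr, i, hLi, hf⟩

theorem fmem_mono (x y : Nm P) (p q : P) (h : q ≤ p) (hxy : fmem x y p) : fmem x y q := by
  cases y with
  | mk κ W y =>
    rw [fmem] at hxy ⊢
    exact fun r hr => hxy r (hr.trans h)

theorem fmem_dense (x y : Nm P) (p : P) (h : ∀ q, q ≤ p → ∃ r, r ≤ q ∧ fmem x y r) :
    fmem x y p := by
  cases y with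
  | mk κ W y =>
    rw [fmem]
    intro q hq
    obtain ⟨r, hr, he⟩ := h q hq
    rw [fmem] at he
    obtain ⟨s, hs, j, hL, hf⟩ := he r le_rfl
    exact ⟨s, hs.trans hr, j, hL, hf⟩

theorem fmem_congr (x x' y y' : Nm P) (p : P) (hx : feq x x' p) (hy : feq y y' p)
    (h : fmem x y p) : fmem x' y' p := by
  cases y with
  | mk κ W y =>
    cases y' with
    | mk μ V z =>
      rw [feq] at hy
      rw [fmem] at h ⊢
      intro q hq
      obtain ⟨r, hr, j, hLj, he⟩ := h q hq
      obtain ⟨s, hs, k, hLk, hf⟩ := hy.1 j r (hr.trans hq) hLj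
      refine ⟨s, hs.trans hr, k, hLk, ?_⟩
      have h1 : feq x' x s := feq_symm _ _ _ (feq_mono _ _ _ _ (hs.trans (hr.trans hq)) hx)
      exact feq_trans _ _ _ _ (feq_trans _ _ _ _ h1 (feq_mono _ _ _ _ hs he)) hf

theorem fmem_child (ι : Type) (U : ι → P → Prop) (x : ι → Nm P) (i : ι) (p : P)
    (h : Lab (U i) p) : fmem (x i) (.mk ι U x) p := by
  rw [fmem]
  intro q hq
  exact ⟨q, le_rfl, i, Lab_mono hq h, feq_refl _ _⟩

end

theorem eq_holds : P_EQ := by
  intro P _ _
  refine ⟨feq_refl, fun x y p => feq_symm x y p, fun x y z p => feq_trans x y z p, feq_mono,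
    feq_dense, fmem_mono, fmem_dense, fmem_congr, fmem_child, ?_⟩
  intro ι U x κ W y p h1 h2
  rw [feq]
  refine ⟨fun i q hq hL => ?_, fun j q hq hL => ?_⟩
  · have h := h1 i q hq (fmem_child ι U x i q hL)
    rw [fmem] at h
    exact h q le_rfl
  · have h := h2 j q hq (fmem_child κ W y j q hL)
    rw [fmem] at h
    obtain ⟨r, hr, i, hLi, he⟩ := h q le_rfl
    exact ⟨r, hr, i, hLi, feq_symm _ _ _ he⟩

end Pool.Agent.W477.GM.W308EQ
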